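import Pool.Agent.Lib.MP_4af24b_nt.Main

namespace Pool.Agent.Results.MP_4af24b_nt.S18

open Pool.Agent.Lib.MP_4af24b_nt

theorem result (p : ℕ) (hp : p.Prime) (h3 : 3 < p) :
    (∀ x y : ℤ, jacobiSym 2 p = 1 → jacobiSym p 3 = 1 → jacobiSym p 5 = 1 →
      (p : ℤ) = x ^ 2 + 30 * y ^ 2 → Cong p (S 18 p) (4 * x ^ 2 - 2 * p)) ∧
    (∀ x y : ℤ, jacobiSym p 3 = 1 → jacobiSym 2 p = -1 → jacobiSym p 5 = -1 →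
      (p : ℤ) = 3 * x ^ 2 + 10 * y ^ 2 → Cong p (S 18 p) (12 * x ^ 2 - 2 * p)) ∧
    (∀ x y : ℤ, jacobiSym 2 p = 1 → jacobiSym p 3 = -1 → jacobiSym p 5 = -1 →
      (p : ℤ) = 2 * x ^ 2 + 15 * y ^ 2 → Cong p (S 18 p) (2 * p - 8 * x ^ 2)) ∧
    (∀ x y : ℤ, jacobiSym p 5 = 1 → jacobiSym 2 p = -1 → jacobiSym p 3 = -1 →
      2 * (p : ℤ) = 3 * x ^ 2 + 10 * y ^ 2 → Cong p (S 18 p) (2 * p - 6 * x ^ 2)) ∧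
    (jacobiSym (-30) p = -1 → Cong p (S 18 p) 0) :=
  main18 p hp h3

end Pool.Agent.Results.MP_4af24b_nt.S18
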